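import Pool.Agent.H94.LP7.M138
import Pool.Agent.H94.LP7.M146
import Pool.Agent.H94.LP7.M86
import Pool.Agent.H94.LP7.M93

/-!
# Bounded degree, or bounded multiplicities: the failing tuples

Let `m_1, …, m_k ≥ 1` be multiplicities of points of `P^r`, let `a_j` be the coefficient of `t^j` in
`∏_i (1 - t^{d + 1 - m_i}) / (1 - t)^{r + 1}`, and let `N = r + 1 - #{i | m_i = d}`.

For every `M` there is a finite set `S` of pairs such that for all `r ≥ 1`, `k`, `d` and `m_1, …, m_k ≥ 1` with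
`d ≤ M` or all `m_i ≤ M`, and with `(N, d) ∉ S`, for general points:

* `dim V_d = a_d` if `a_0, …, a_d > 0`, and `V_d = 0` otherwise;
* `Γ` fails to impose maximal conditions in degree `d` if and only if `a_0, …, a_d > 0` and
  `m_i + m_j ≥ d + 2` for some `i ≠ j`.
-/

namespace Pool.Agent.Results.MP_1dafdd_ag.FixedDegree

open Pool.Agent.H18.Fat Pool.Agent.H21.HD

/-- The coefficient of `t^j` in `∏_i (1 - t^{d + 1 - m_i}) / (1 - t)^{r + 1}`. -/
noncomputable def a (r d : ℕ) {k : ℕ} (m : Fin k → ℕ) (j : ℕ) : ℤ :=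
  PowerSeries.coeff j ((∏ i, (1 - PowerSeries.X ^ (d + 1 - m i))) *
    (PowerSeries.invOneSubPow ℤ (r + 1) : PowerSeries ℤ))

theorem fro_eq (r d : ℕ) {k : ℕ} (m : Fin k → ℕ) (I : Finset (Fin k)) (j : ℕ) :
    fro r (fun i => d + 1 - m i) I j =
      PowerSeries.coeff j ((∏ i ∈ I, (1 - PowerSeries.X ^ (d + 1 - m i))) *
        (PowerSeries.invOneSubPow ℤ (r + 1) : PowerSeries ℤ)) := by
  induction I using Finset.induction_on generalizing j with
  | empty =>
    unfold fro
    simp only [Finset.powerset_empty, Finset.sum_singleton, Finset.card_empty, pow_zero,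
      Finset.sum_empty, Nat.zero_le, if_true, Nat.sub_zero, one_mul, Finset.prod_empty]
    rw [PowerSeries.invOneSubPow_val_succ_eq_mk_add_choose, PowerSeries.coeff_mk]
  | insert b s hb ih =>
    rw [fro_insert' r (fun i => d + 1 - m i) s b hb j, ih, Finset.prod_insert hb, mul_assoc, sub_mul,
      one_mul, map_sub, PowerSeries.coeff_X_pow_mul']
    congr 1
    by_cases h : d + 1 - m b ≤ j
    · rw [if_pos h, if_pos h, ih]
    · rw [if_neg h, if_neg h]

theorem fro_eq_a (r d : ℕ) {k : ℕ} (m : Fin k → ℕ) (j : ℕ) :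
    fro r (fun i => d + 1 - m i) Finset.univ j = a r d m j :=
  fro_eq r d m Finset.univ j

/-- The dimension is the expected one. -/
def Dim (r d : ℕ) {k : ℕ} (m : Fin k → ℕ) : Prop :=
  ((∀ j ≤ d, 0 < a r d m j) →
    ForGeneralPoints r k fun p => (Module.finrank ℂ (fatForms r d p m) : ℤ) = a r d m d) ∧
  (¬ (∀ j ≤ d, 0 < a r d m j) →
    ForGeneralPoints r k fun p => Module.finrank ℂ (fatForms r d p m) = 0)

/-- The failing tuples. -/
def Fail (r d : ℕ) {k : ℕ} (m : Fin k → ℕ) : Prop :=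
  ForGeneralPoints r k fun p => (¬ ImposesMaximalConditions r d p m ↔
    (∀ j ≤ d, 0 < a r d m j) ∧ ∃ i j, i ≠ j ∧ d + 2 ≤ m i + m j)

theorem imposes_of_zero {r d k : ℕ} (hr : 1 ≤ r) (m : Fin k → ℕ)
    (h : ForGeneralPoints r k fun p => Module.finrank ℂ (fatForms r d p m) = 0) :
    ForGeneralPoints r k fun p => ImposesMaximalConditions r d p m := by
  refine (h.and (ForGeneralPoints.coord_ne_zero r k)).mono fun p hp => ?_
  have hge := finrank_fatForms_ge (d := d) hr (fun i => hp.2 i 0) m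
  unfold ImposesMaximalConditions
  rw [hp.1] at hge ⊢
  omega

theorem a_big {r d k : ℕ} (m : Fin k → ℕ) {i : Fin k} (hi : d < m i) (j : ℕ) : a r d m j = 0 := by
  unfold a
  have h : ∏ i, ((1 : PowerSeries ℤ) - PowerSeries.X ^ (d + 1 - m i)) = 0 := by
    refine Finset.prod_eq_zero (Finset.mem_univ i) ?_
    rw [show d + 1 - m i = 0 by omega, pow_zero, sub_self]
  rw [h, zero_mul, map_zero]

/-- Fixed degree. -/
theorem fixed (hT : Pool.Agent.GD.TargetZero) (d : ℕ) : ∃ n₀ : ℕ, ∀ (r k : ℕ) (m : Fin k → ℕ), 1 ≤ r →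
    (∀ i, 1 ≤ m i) → ∀ N : ℕ, N + (Finset.univ.filter fun i => m i = d).card = r + 1 → n₀ ≤ N →
      Dim r d m ∧ Fail r d m := by
  classical
  obtain ⟨n₀, h₀⟩ := Pool.Agent.GD.FIN.complete_of_target hT d
  obtain ⟨r₁, h₁⟩ := Pool.Agent.H74.V7.fixed_final Pool.Agent.V7.crit d
  refine ⟨r₁ + n₀ + 1, fun r k m hr hm N hN hn => ?_⟩
  by_cases hbig : ∃ i, d < m i
  · obtain ⟨i, hi⟩ := hbig
    have hV : ForGeneralPoints r k fun p => Module.finrank ℂ (fatForms r d p m) = 0 :=
      ⟨1, one_ne_zero, fun p _ => MainX.big_mult p m i hi⟩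
    have ha : ¬ ∀ j ≤ d, 0 < a r d m j := fun h => by
      have h1 := h 0 (Nat.zero_le d)
      rw [a_big m hi] at h1
      omega
    exact ⟨⟨fun h => absurd h ha, fun _ => hV⟩, (imposes_of_zero hr m hV).mono fun p hp =>
      ⟨fun h => absurd hp h, fun h => absurd h.1 ha⟩⟩
  push Not at hbig
  obtain ⟨z1, z2⟩ := h₀ r k m (fun i => ⟨hm i, hbig i⟩) N hN (by omega)
  simp only [fro_eq_a] at z1 z2
  refine ⟨⟨z2, z1⟩, ?_⟩
  by_cases hpos : ∀ j ≤ d, 0 < a r d m j
  · by_cases hpair : ∃ i j, i ≠ j ∧ d + 2 ≤ m i + m j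
    · refine ((Pool.Agent.H51.TB.fixed_two r d k hr m hm hpair).and (z2 hpos)).mono fun p hp => ?_
      have h1 := hpos d le_rfl
      have h2 : 0 < Module.finrank ℂ (fatForms r d p m) := by
        have := hp.2
        omega
      exact ⟨fun _ => ⟨hpos, hpair⟩, fun _ => hp.1.2 h2⟩
    · have h1 := h₁ r (by omega) k m hm fun i j hij => by
        by_contra hcon
        exact hpair ⟨i, j, hij, by omega⟩
      exact h1.mono fun p hp => ⟨fun h => absurd hp h, fun h => absurd h.2 hpair⟩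
  · exact (imposes_of_zero hr m (z1 hpos)).mono fun p hp =>
      ⟨fun h => absurd hp h, fun h => absurd h.1 hpos⟩

/-- Degrees at least `2 M - 1`. -/
theorem high (M : ℕ) (hM : 1 ≤ M) : ∃ S : Finset (ℕ × ℕ), ∀ r d : ℕ, 1 ≤ r → (r, d) ∉ S →
    2 * M ≤ d + 1 → ∀ (k : ℕ) (m : Fin k → ℕ), (∀ i, 1 ≤ m i ∧ m i ≤ M) → Dim r d m ∧ Fail r d m := by
  obtain ⟨S, hS⟩ := Pool.Agent.H74.V7.final_set Pool.Agent.V7.crit M hM
  refine ⟨S, fun r d hr hrd hd k m hm => ?_⟩
  have h1 := (hS r d hr hrd).1 (Or.inr hd) k m hm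
  have he : ∀ i ∈ (Finset.univ : Finset (Fin k)), d < 2 * (d + 1 - m i) := fun i _ => by
    have := (hm i).2
    omega
  have h2 : fro r (fun i => d + 1 - m i) Finset.univ d =
      ((d + r).choose r : ℤ) - ∑ i, ((m i + r - 1).choose r : ℤ) := by
    rw [Pool.Agent.KQ.fro_lin r d _ Finset.univ he d le_rfl, add_comm r d]
    congr 1
    refine Finset.sum_congr rfl fun i _ => ?_
    have := hm i
    rw [if_pos (by omega), show r + (d - (d + 1 - m i)) = m i + r - 1 by omega]
  have h4 : ∀ j, fro r (fun i => d + 1 - m i) Finset.univ j = a r d m j := fro_eq_a r d m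
  refine ⟨⟨fun hpos => ?_, fun hneg => ?_⟩, ?_⟩
  · refine h1.mono fun p hp => ?_
    have h3 := hpos d le_rfl
    unfold ImposesMaximalConditions at hp
    rw [hp, ← h2, h4, max_eq_right h3.le]
  · have h3 : a r d m d ≤ 0 := by
      by_contra hcon
      push Not at hcon
      rw [← h4] at hcon
      refine hneg fun j hj => ?_
      rw [← h4]
      exact Pool.Agent.KQ.fro_pos r d _ Finset.univ he hcon j hj
    refine h1.mono fun p hp => ?_
    unfold ImposesMaximalConditions at hp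
    rw [← h2, h4, max_eq_left h3] at hp
    exact_mod_cast hp
  · refine h1.mono fun p hp => ⟨fun h => absurd hp h, ?_⟩
    rintro ⟨_, i, j, _, hij⟩
    have := (hm i).2
    have := (hm j).2
    omega

/-- For every `M` there is a finite set `S` of pairs such that the following holds for all `r ≥ 1`, all `k`,
all degrees `d` and all multiplicities `m_1, …, m_k ≥ 1` with `d ≤ M` or `m_1, …, m_k ≤ M`, if `(N, d) ∉ S` for
`N = r + 1 - #{i | m_i = d}`.

For general points `dim V_d = a_d` if `a_j > 0` for all `j ≤ d`, and `V_d = 0` otherwise; and `Γ` fails to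
impose maximal conditions in degree `d` if and only if `a_j > 0` for all `j ≤ d` and `m_i + m_j ≥ d + 2` for
some `i ≠ j`. -/
theorem result :
    ∀ M : ℕ, ∃ S : Finset (ℕ × ℕ), ∀ (r k d : ℕ) (m : Fin k → ℕ), 1 ≤ r → (∀ i, 1 ≤ m i) →
      (d ≤ M ∨ ∀ i, m i ≤ M) → (r + 1 - (Finset.univ.filter fun i => m i = d).card, d) ∉ S →
        ((∀ j ≤ d, 0 < a r d m j) →
          ForGeneralPoints r k fun p => (Module.finrank ℂ (fatForms r d p m) : ℤ) = a r d m d) ∧
        (¬ (∀ j ≤ d, 0 < a r d m j) →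
          ForGeneralPoints r k fun p => Module.finrank ℂ (fatForms r d p m) = 0) ∧
        ForGeneralPoints r k fun p => (¬ ImposesMaximalConditions r d p m ↔
          (∀ j ≤ d, 0 < a r d m j) ∧ ∃ i j, i ≠ j ∧ d + 2 ≤ m i + m j) := by
  classical
  intro M
  obtain ⟨S₁, hS₁⟩ := high (M + 1) (by omega)
  choose n₀ h₀ using fixed Pool.Agent.GD.targetZero_main
  refine ⟨(S₁.image fun x => (x.1 + 1, x.2)) ∪
    (Finset.range (2 * M + 2)).biUnion fun d => (Finset.range (n₀ d + 1)).image fun N => (N, d),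
    fun r k d m hr hm hM hS => ?_⟩
  suffices hs : Dim r d m ∧ Fail r d m from ⟨hs.1.1, hs.1.2, hs.2⟩
  rw [Finset.mem_union, not_or] at hS
  by_cases hd : d < 2 * M + 2
  · have hN : n₀ d < r + 1 - (Finset.univ.filter fun i => m i = d).card := by
      by_contra hcon
      push Not at hcon
      exact hS.2 (Finset.mem_biUnion.2 ⟨d, Finset.mem_range.2 hd,
        Finset.mem_image.2 ⟨_, Finset.mem_range.2 (Nat.lt_succ_of_le hcon), rfl⟩⟩)
    exact h₀ d r k m hr hm (r + 1 - (Finset.univ.filter fun i => m i = d).card) (by omega) hN.le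
  · have hm' : ∀ i, m i ≤ M := by
      rcases hM with h | h
      · omega
      · exact h
    have hcard : (Finset.univ.filter fun i => m i = d) = ∅ := by
      rw [Finset.filter_eq_empty_iff]
      intro i _
      have := hm' i
      omega
    rw [hcard, Finset.card_empty, Nat.sub_zero] at hS
    refine hS₁ r d hr (fun h => hS.1 (Finset.mem_image.2 ⟨(r, d), h, rfl⟩)) (by omega) k m fun i =>
      ⟨hm i, (hm' i).trans (by omega)⟩

end Pool.Agent.Results.MP_1dafdd_ag.FixedDegree
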