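import Pool.Agent.H94.LP4.H18.Ub.VDim_2
import Pool.Agent.H94.LP4.H74.BP.Dec_1
import Pool.Agent.H94.LP4.H74.CT.Jump_1
import Pool.Agent.H94.LP4.H74.CT.Lp
import Pool.Agent.H94.LP4.H74.SC.GenS

/-!
# General fat points: reduction to the large multiplicities

Let `J` be any set of the points, `h j` the dimension of `V_j` of the points of `J` alone, for general
points, `S` the length of the points outside `J` and `S_s` its part with multiplicities at least `s`.
The points outside `J` impose maximal conditions on `V_d` of the points of `J`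

* if `d` is large in terms of `r`, `M`, `ε`, some form of degree at most `(1 - ε) d` has the given
  multiplicities at the points with multiplicity more than `M`, and the multiplicities outside `J` are at
  most `ε d / 2`;
* if for every multiplicity `s` outside `J` one has `S_s ≤ h (d + 1 - s)` or `S ≥ h (d - 1 + s)`;
* if `h j - h (j - 1)` grows slowly below `d` (or the points of `J` impose independent conditions in a
  slightly smaller degree) and for every multiplicity `s > M` outside `J` one has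
  `S_s ≤ h (d - 300 r M ^ (r + 4) - s)` or `S ≥ h (d - 1 + s)`.

For `J` empty this is an explicit sufficient condition for maximal conditions in all `P^r`.  Almost all
degrees are slow, for every `J`, and there are explicit conditions.
-/

namespace Pool.Agent.Results.MP_1dafdd_ag.LargePart

open Finset Pool.Agent.H18.Fat Pool.Agent.H18.Pr Pool.Agent.H18.Ub

/-- `h(j)`: the dimension of `V_j` for general points, if the points outside `J` are omitted. -/
noncomputable def largeDim (r : ℕ) {k : ℕ} (m : Fin k → ℕ) (J : Finset (Fin k)) (j : ℕ) : ℕ :=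
  generalDim r j fun i => if i ∈ J then m i else 0

/-- `t(j) = h(j) - h(j - 1)` (`0` for `j = 0`). -/
noncomputable def largeGrowth (r : ℕ) {k : ℕ} (m : Fin k → ℕ) (J : Finset (Fin k)) (j : ℕ) : ℕ :=
  largeDim r m J j - largeDim r m J (j - 1)

/-- The degree `d` is slow for `J`: `16 M² B (t(d) - t(d - 66 M³ B)) ≤ t(d)`, `B = binom(M + r - 1, r)`. -/
def Slow (r M : ℕ) {k : ℕ} (m : Fin k → ℕ) (J : Finset (Fin k)) (d : ℕ) : Prop :=
  16 * M ^ 2 * (M + r - 1).choose r * (largeGrowth r m J d -
    largeGrowth r m J (d - 66 * M ^ 3 * (M + r - 1).choose r)) ≤ largeGrowth r m J d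

/-- `S`: the number of the conditions of the points outside `J`. -/
def smallLength (r : ℕ) {k : ℕ} (m : Fin k → ℕ) (J : Finset (Fin k)) : ℕ :=
  ∑ i ∈ univ.filter (fun i => i ∉ J), (m i + r - 1).choose r

/-- `S_s`: the number of the conditions of the points outside `J` with multiplicity at least `s`. -/
def levelLength (r : ℕ) {k : ℕ} (m : Fin k → ℕ) (J : Finset (Fin k)) (s : ℕ) : ℕ :=
  ∑ i ∈ univ.filter (fun i => i ∉ J ∧ s ≤ m i), (m i + r - 1).choose r

/-- Off the windows of the multiplicities `s > M` outside `J`: `S_s ≤ h(d + 1 - F - s)` or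
`h(d - 1 + s) ≤ S`. -/
def OffWindows (r M F : ℕ) {k : ℕ} (m : Fin k → ℕ) (J : Finset (Fin k)) (d : ℕ) : Prop :=
  ∀ i, i ∉ J → M < m i →
    (∃ e, e + m i + F ≤ d + 1 ∧ levelLength r m J (m i) ≤ largeDim r m J e) ∨
    (∃ e, d + m i ≤ e + 1 ∧ largeDim r m J e ≤ smallLength r m J)

/-- The multiplicities `m` in degree `d` are decided by the part `J` of the multiplicities `m'` in degree
`d'`: for general points `dim V_d = max {0, h(d') - S}`, and the points fail to impose maximal conditions
iff `h(d') - S > 0` and `h(d') - S > binom(d + r, r) - ∑ binom(m i + r - 1, r)`. -/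
def Decides (r : ℕ) {k : ℕ} (d : ℕ) (m : Fin k → ℕ) (d' : ℕ) (m' : Fin k → ℕ)
    (J : Finset (Fin k)) : Prop :=
  ForGeneralPoints r k fun p =>
    (Module.finrank ℂ (fatForms r d p m) : ℤ) =
      max 0 ((largeDim r m' J d' : ℤ) - smallLength r m' J) ∧
    (¬ ImposesMaximalConditions r d p m ↔
      0 < (largeDim r m' J d' : ℤ) - smallLength r m' J ∧
      ((d + r).choose r : ℤ) - ∑ i, ((m i + r - 1).choose r : ℤ) <
        (largeDim r m' J d' : ℤ) - smallLength r m' J)

/-- Main theorem. -/
theorem result (r M : ℕ) (hr : 2 ≤ r) (hM : 1 ≤ M) :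
    -- (1) away from the boundary of the effective cone
    (∀ ε : ℝ, 0 < ε → ∃ d₀ : ℕ, ∀ (k d d' : ℕ) (m m' : Fin k → ℕ) (J : Finset (Fin k)),
      Cremona r d m d' m' → d₀ ≤ d' → (∀ i, i ∉ J → (m' i : ℝ) ≤ ε / 2 * d') →
      (∃ j : ℕ, (j : ℝ) ≤ (1 - ε) * d' ∧
        0 < largeDim r m' (J ∪ univ.filter fun i => M < m' i) j) →
      Decides r d m d' m' J ∧ {i | ε / 2 * d' < (m' i : ℝ)}.ncard ≤ ⌈2 / ε⌉₊ ^ r) ∧
    -- (2) off the windows of all multiplicities
    (∀ (k d d' : ℕ) (m m' : Fin k → ℕ) (J : Finset (Fin k)),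
      Cremona r d m d' m' → OffWindows r 0 0 m' J d' → Decides r d m d' m' J) ∧
    -- (3) slow growth, or independent conditions in a smaller degree
    (∀ (k d d' : ℕ) (m m' : Fin k → ℕ) (J : Finset (Fin k)),
      Cremona r d m d' m' → OffWindows r M (300 * r * M ^ (r + 4) + 1) m' J d' →
      (Slow r M m' J d' ∨ (300 * r * M ^ (r + 4) ≤ d' ∧
        (largeDim r m' J (d' - 300 * r * M ^ (r + 4)) : ℤ) =
          ((d' - 300 * r * M ^ (r + 4) + r).choose r : ℤ) -
            ∑ i ∈ J, ((m' i + r - 1).choose r : ℤ))) →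
      Decides r d m d' m' J) ∧
    -- (4) almost all degrees are slow
    (∀ (k : ℕ) (m : Fin k → ℕ) (J : Finset (Fin k)) (X : ℕ),
      ({e | e ≤ X ∧ ¬ Slow r M m J e}.ncard : ℝ) ≤ 66 * M ^ 3 * (M + r - 1).choose r *
        (1 + 16 * M ^ 2 * (M + r - 1).choose r * Real.log ((X + r - 1).choose (r - 1)))) ∧
    -- (5) explicit conditions
    (∀ (k e D : ℕ) (m : Fin k → ℕ) (J : Finset (Fin k)),
      D = 10 ^ 6 * r ^ 5 * 8 ^ r * M ^ 8 * (M + r - 1).choose r ^ 3 → D ≤ e →
      (∀ i ∈ J, m i + D ≤ e) → (∀ i ∈ J, ∀ j ∈ J, i ≠ j → m i + m j ≤ e + 1) →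
      (J.card < 2 ^ r ∨ ∑ i ∈ J, m i + D ≤ r * e) →
      Slow r M m J e ∧
      ((∑ i ∈ J, m i + D ≤ r * e ∨ ∀ i ∈ J, ∀ j ∈ J, i ≠ j → m i + m j + r ≤ e + 2) →
        largeDim r m J e + ∑ i ∈ J, (m i + r - 1).choose r = (e + r).choose r)) ∧
    -- (6) the case `J = ∅`
    (∀ (k d : ℕ) (m : Fin k → ℕ), 300 * r * M ^ (r + 4) ≤ d →
      (∀ i, M < m i →
        (300 * r * M ^ (r + 4) + m i ≤ d ∧
          ∑ l ∈ univ.filter (fun l => m i ≤ m l), (m l + r - 1).choose r ≤
            (d - 300 * r * M ^ (r + 4) - m i + r).choose r) ∨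
        (d + m i - 1 + r).choose r ≤ ∑ l, (m l + r - 1).choose r) →
      ForGeneralPoints r k fun p => ImposesMaximalConditions r d p m) := by
  classical
  have hB : 1 ≤ (M + r - 1).choose r := Nat.choose_pos (by omega)
  have hC1 : 1 ≤ 66 * M ^ 3 * (M + r - 1).choose r := Nat.one_le_iff_ne_zero.2 (by positivity)
  have hE1 : 1 ≤ 16 * M ^ 2 * (M + r - 1).choose r := Nat.one_le_iff_ne_zero.2 (by positivity)
  have hdec : ∀ (k d d' : ℕ) (m m' : Fin k → ℕ) (J : Finset (Fin k)),
      Cremona r d m d' m' → Pool.Agent.H74.BP.Max r d' m' J → Decides r d m d' m' J :=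
    fun k d d' m m' J hcr h => final_of_dim (by omega) hcr _ h
  refine ⟨fun ε hε => ?_, fun k d d' m m' J hcr hoff => ?_,
    fun k d d' m m' J hcr hoff hyp => ?_, fun k m J X => ?_, fun k d D m J hD hDd h1 h3 h2 => ?_,
    fun k d m hFd hoff => ?_⟩
  · obtain ⟨d₀, hd₀⟩ := Pool.Agent.H74.BP.max_big r M hr hM ε hε
    refine ⟨d₀, fun k d d' m m' J hcr hd hJ he => ?_⟩
    obtain ⟨h4, h5⟩ := hd₀ k d' m' J hd hJ he
    exact ⟨hdec k d d' m m' J hcr h4, h5⟩
  · refine hdec k d d' m m' J hcr (Pool.Agent.H74.SC.max_all r hr k d' m' J fun i hi h1 => ?_)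
    rcases hoff i hi (by omega) with ⟨e, he1, he2⟩ | h
    · exact Or.inl ⟨e, by omega, he2⟩
    · exact Or.inr h
  · refine hdec k d d' m m' J hcr (Pool.Agent.H74.SC.max_gen r M hr hM k d' m' J
      (largeDim r m' J) (fun _ => rfl) (fun i hi h1 => ?_) hyp)
    rcases hoff i hi h1 with ⟨e, he1, he2⟩ | h
    · exact Or.inl ⟨e, by omega, he2⟩
    · exact Or.inr h
  · have h4 := Pool.Agent.H74.CT.card_jumps (r := r) (by omega) hC1 hE1
      (fun i => if i ∈ J then m i else 0) (largeGrowth r m J) (fun _ => rfl) X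
    have h5 : {e | e ≤ X ∧ ¬ Slow r M m J e} = ((range (X + 1)).filter fun j =>
        largeGrowth r m J j < 16 * M ^ 2 * (M + r - 1).choose r * (largeGrowth r m J j -
          largeGrowth r m J (j - 66 * M ^ 3 * (M + r - 1).choose r)) : Finset ℕ) := by
      ext j
      rw [mem_coe, mem_filter, mem_range]
      unfold Slow
      constructor
      · rintro ⟨h6, h7⟩
        exact ⟨by omega, not_le.1 h7⟩
      · rintro ⟨h6, h7⟩
        exact ⟨by omega, not_le.2 h7⟩
    rw [h5, Set.ncard_coe_finset]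
    refine h4.trans (le_of_eq ?_)
    push_cast
    ring
  · obtain ⟨s, rfl⟩ : ∃ s, r = s + 2 := ⟨r - 2, by omega⟩
    have hDL : Pool.Agent.H74.CT.DL (s + 2) M = D := hD.symm
    have hDD : Pool.Agent.H74.CT.DD (s + 2) M ≤ D := by
      rw [← hDL]
      exact Pool.Agent.H74.CT.DD_le_DL _ _
    have hge : (d + (s + 2)).choose (s + 2) ≤
        largeDim (s + 2) m J d + ∑ i ∈ J, (m i + (s + 2) - 1).choose (s + 2) :=
      Pool.Agent.H74.CT.dim_ge s d k m J
    have hsum : ∑ i ∈ J, m i + D ≤ (s + 2) * d → Slow (s + 2) M m J d ∧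
        largeDim (s + 2) m J d + ∑ i ∈ J, (m i + (s + 2) - 1).choose (s + 2) ≤
          (d + (s + 2)).choose (s + 2) := by
      intro h4
      exact Pool.Agent.H74.CT.growth_sum s M k d hM m J (by omega)
        (fun i hi => by
          have := h1 i hi
          omega) (by omega) h3 (largeDim (s + 2) m J) (fun _ => rfl)
    refine ⟨?_, fun h4 => ?_⟩
    · rcases h2 with h2 | h2
      · exact Pool.Agent.H74.CT.growth_few s M k d hM m J (by rw [hDL]; exact hDd)
          (by rw [hDL]; exact h1) h2 h3 (largeDim (s + 2) m J) (fun _ => rfl)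
      · exact (hsum h2).1
    · rcases h4 with h4 | h4
      · exact le_antisymm (hsum h4).2 hge
      · refine le_antisymm ?_ hge
        rcases h2 with h2 | h2
        · have h5 : ∑ u ∈ range (s + 2 + 1), (s + 2).choose u = 2 ^ (s + 2) :=
            Nat.sum_range_choose (s + 2)
          have hsD : s ≤ D := by
            rw [hD]
            calc s ≤ (s + 2) ^ 1 := by rw [pow_one]; omega
              _ ≤ (s + 2) ^ 5 := Nat.pow_le_pow_right (by omega) (by norm_num)
              _ = (s + 2) ^ 5 * 1 := (Nat.mul_one _).symm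
              _ ≤ (s + 2) ^ 5 * (10 ^ 6 * 8 ^ (s + 2) * M ^ 8 *
                  (M + (s + 2) - 1).choose (s + 2) ^ 3) :=
                Nat.mul_le_mul_left _ (Nat.one_le_iff_ne_zero.2 (by positivity))
              _ = _ := by ring
          refine Pool.Agent.H74.CT.exact2 s s k d m J (by omega) (fun i hi => ?_) ?_
            fun i hi j hj hij => ?_
          · have := h1 i hi
            omega
          · rw [h5]
            exact h2.le
          · have := h4 i hi j hj hij
            omega
        · exact (hsum h2).2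
  · have hg0 : ∀ j, (generalDim r j fun i => if i ∈ (∅ : Finset (Fin k)) then m i else 0) =
        (j + r).choose r := by
      intro j
      obtain ⟨s, rfl⟩ : ∃ s, r = s + 2 := ⟨r - 2, by omega⟩
      have h1 := Pool.Agent.H74.CT.exact2 s 0 k j m ∅ (Nat.zero_le _)
        (fun i hi => absurd hi (notMem_empty i)) (by simp) (fun x hx => absurd hx (notMem_empty x))
      have h2 := Pool.Agent.H74.CT.dim_ge s j k m ∅
      rw [sum_empty, Nat.add_zero] at h1 h2
      exact le_antisymm h1 h2
    have hmax := Pool.Agent.H74.SC.max_gen r M hr hM k d m ∅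
      (fun j => generalDim r j fun i => if i ∈ (∅ : Finset (Fin k)) then m i else 0) (fun _ => rfl)
      (fun i _ hMi => ?_) (Or.inr ⟨hFd, ?_⟩)
    · refine hmax.mono fun p hp => ?_
      unfold ImposesMaximalConditions
      rw [hp, hg0]
      congr 2
      unfold Pool.Agent.H74.BP.len
      push_cast
      simp
    · rcases hoff i hMi with ⟨h1, h2⟩ | h
      · refine Or.inl ⟨d - 300 * r * M ^ (r + 4) - m i, by omega, ?_⟩
        rw [hg0]
        refine le_trans (le_of_eq ?_) h2
        unfold Pool.Agent.H74.BP.len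
        refine sum_congr ?_ fun _ _ => rfl
        ext l
        rw [Pool.Agent.H74.SC.mem_above, mem_filter]
        simp
      · refine Or.inr ⟨d + m i - 1, by omega, ?_⟩
        rw [hg0]
        refine h.trans (le_of_eq ?_)
        unfold Pool.Agent.H74.BP.len
        simp
    · rw [hg0]
      simp

end Pool.Agent.Results.MP_1dafdd_ag.LargePart
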