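import Pool.Agent.H94.LP4.H18.Tl.FinalL
import Pool.Agent.H94.LP4.H74.SC.PlaneS
import Pool.Agent.H94.LP4.M64
import Pool.Agent.H94.LP4.M72

/-!
# Arbitrary large multiplicities, without margins

For every `r ≥ 2` there are `K, E`, and for every `M ≥ 1` and `ε > 0`, with `D = K * M ^ E`, a constant `D₁`, such that the
following holds.  Suppose that finitely many standard Cremona transformations of `ℙ^r`, each based at `r + 1` of the points,
lead from `(d; m_1, …, m_k)` to `(d'; m'_1, …, m'_k)`, negative multiplicities being replaced by `0` (`Cremona`).  Let `J` be a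
set of points.

(1) `r ≥ 2`: let `T_s` be the sum of `binom(m'_l + r - 1, r)` over the points `l` in `J` and the points with `m'_l ≥ s`, so
that `T_0` is the sum over all points.  `(d'; m')` is off the window (`OffWindow`) if every point `i` outside `J` with
`s = m'_i > M` satisfies `T_s ≤ binom(d' - D - s + r, r)` (and `D + s ≤ d'`) or `T_0 ≥ binom(d' + s + r - 1, r)`.
Suppose that one of the following holds.
(a) `(d'; m')` is off the window, `D₁ ≤ d'`, `m'_i ≥ ε d'` on `J`, and `2 ^ r ∑_{i ∈ J} m'_i ^ r ≤ ((1 - ε) d') ^ r`.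
(b) The same, but instead of the last condition: for some `a ≤ (1 - ε) d'` the class `a H - ∑_{i ∈ J} m'_i E_i` is nef
on the blow-up of the plane at general points (`Nef`).
(c) The same, but instead of the last condition: `r = 2`, `(d'; m')` is in standard form, i.e. `∑_{i ∈ S} m'_i ≤ d'` for all
sets `S` of at most three points (`Std`), and `∑_{i ∈ J} m'_i ^ 2 ≤ (36 / 37 - ε) d' ^ 2` or `∑_{i ∈ J} m'_i ≤ (3 - ε) d'`.
(d) `r = 2`, `(d'; m')` is in standard form and off the window, `D ≤ d'` and `J` has at most eight points.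
(e) `r = 2`, `(d'; m')` is in standard form and `36 ∑_i m'_i ^ 2 > 37 d' ^ 2` (the sum over all `i`).
(f) `r = 2`, `(d'; m')` is in standard form, `D ≤ d'`, `J` has nine points, `m'_i ≤ M` outside `J` and
`∑_{i ∈ J} m'_i + D ≤ 3 d'`.
Then for general points `dim V_d(Γ) = max {0, v'}`, where `v'` is the virtual dimension of `(d'; m')`.

(2) `r ≥ 3`: `m'_i ≤ M` outside `J`, `J` has at most `r + 1` points, `m'_i ≤ d'` on `J`, and one of the following two
conditions holds.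
(a) `D₁ ≤ d'` and `(d'; m')` is Cremona-reduced, i.e. `∑_{i ∈ S} m'_i ≤ (r - 1) d'` for all sets `S` of at most `r + 1` points.
(b) `D ≤ d'`, `∑_{i ∈ J} m'_i + D ≤ r d'`, and at most `r - 2` of the points `i ∈ J` have `m'_i > d' - D`.
Then for general points `dim V_d(Γ) = max {0, v'}`, where
`v' = N(d') - ∑_{i ∉ J, m'_i ≥ 1} N(m'_i - 1)` and `N(e)` is the number of the monomials of degree `e` in `x_0, …, x_r` with
exponent at most `d' - m'_i` at the variable belonging to `i ∈ J`.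

In both cases `Γ` fails to impose maximal conditions if and only if `v' > 0` and `v' > v`, where `v` is the virtual
dimension of `(d; m)`.
-/

namespace Pool.Agent.Results.MP_1dafdd_ag.NoMargins

open Finset Pool.Agent.H18.Fat Pool.Agent.H18.Pr Pool.Agent.H18.Ta Pool.Agent.H18.Tj

/-- `a H - ∑ m_i E_i` is nef on the blow-up of the plane at `n` general points: its intersection number
with every non-empty system of curves of degree `e` with multiplicities at least `k_i` is `≥ 0`. -/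
def Nef {n : ℕ} (a : ℕ) (m : Fin n → ℕ) : Prop :=
  ∀ (e : ℕ) (k : Fin n → ℕ), 1 ≤ generalDim 2 e k → ∑ i, m i * k i ≤ a * e

/-- Standard form in the plane. -/
def Std {k : ℕ} (d : ℕ) (m : Fin k → ℕ) : Prop :=
  ∀ S : Finset (Fin k), S.card ≤ 3 → ∑ i ∈ S, m i ≤ d

/-- Off the window: for no point `i` outside `J` with `M < m_i` do `J` and the points with multiplicity
at least `m_i` carry about all conditions. -/
def OffWindow (r D M d : ℕ) {k : ℕ} (m : Fin k → ℕ) (J : Finset (Fin k)) : Prop :=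
  ∀ i, i ∉ J → M < m i →
    (D + m i ≤ d ∧ ∑ l ∈ univ.filter (fun l => l ∈ J ∨ m i ≤ m l), (m l + r - 1).choose r ≤
      (d - D - m i + r).choose r) ∨
    (d + m i - 1 + r).choose r ≤ ∑ l, (m l + r - 1).choose r

/-- Main theorem. -/
theorem result :
    (∀ r : ℕ, 2 ≤ r → ∃ K E : ℕ, ∀ M : ℕ, 1 ≤ M → ∀ ε : ℝ, 0 < ε → ∃ D₁ : ℕ,
      ∀ (k d d' : ℕ) (m m' : Fin k → ℕ) (J : Finset (Fin k)),
      Cremona r d m d' m' →
      (OffWindow r (K * M ^ E) M d' m' J ∧
        (D₁ ≤ d' ∧ (∀ i ∈ J, ε * d' ≤ m' i) ∧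
          (2 ^ r * ∑ i ∈ J, (m' i : ℝ) ^ r ≤ ((1 - ε) * d') ^ r ∨
            (∃ a : ℕ, (a : ℝ) ≤ (1 - ε) * d' ∧ Nef a fun i => if i ∈ J then m' i else 0) ∨
            r = 2 ∧ Std d' m' ∧ (∑ i ∈ J, (m' i : ℝ) ^ 2 ≤ (36 / 37 - ε) * d' ^ 2 ∨
              ∑ i ∈ J, (m' i : ℝ) ≤ (3 - ε) * d')) ∨
          r = 2 ∧ Std d' m' ∧ K * M ^ E ≤ d' ∧ J.card ≤ 8)) ∨
        r = 2 ∧ Std d' m' ∧ (37 * d' ^ 2 < 36 * ∑ i, m' i ^ 2 ∨
          K * M ^ E ≤ d' ∧ J.card = 9 ∧ (∀ i, i ∉ J → m' i ≤ M) ∧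
            ∑ i ∈ J, m' i + K * M ^ E ≤ 3 * d') →
      ForGeneralPoints r k fun p =>
        (Module.finrank ℂ (fatForms r d p m) : ℤ) =
          max 0 (((d' + r).choose r : ℤ) - ∑ i, ((m' i + r - 1).choose r : ℤ)) ∧
        (¬ ImposesMaximalConditions r d p m ↔
          0 < ((d' + r).choose r : ℤ) - ∑ i, ((m' i + r - 1).choose r : ℤ) ∧
          ((d + r).choose r : ℤ) - ∑ i, ((m i + r - 1).choose r : ℤ) <
            ((d' + r).choose r : ℤ) - ∑ i, ((m' i + r - 1).choose r : ℤ))) ∧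
    ∀ r : ℕ, 3 ≤ r → ∃ K E : ℕ, ∀ M : ℕ, 1 ≤ M → ∃ D₁ : ℕ,
      ∀ (k d d' s : ℕ) (m m' : Fin k → ℕ) (J : Fin s ↪ Fin k),
      Cremona r d m d' m' → s ≤ r + 1 → (∀ i, (∀ l, J l ≠ i) → m' i ≤ M) →
      (∀ l, m' (J l) ≤ d') →
      (D₁ ≤ d' ∧ ∀ S : Finset (Fin k), S.card ≤ r + 1 → ∑ i ∈ S, m' i ≤ (r - 1) * d') ∨
        (K * M ^ E ≤ d' ∧ ∑ l, m' (J l) + K * M ^ E ≤ r * d' ∧
          (univ.filter fun l => d' < m' (J l) + K * M ^ E).card + 2 ≤ r) →
      ForGeneralPoints r k fun p =>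
        (Module.finrank ℂ (fatForms r d p m) : ℤ) =
          max 0 ((cnt r s (fun l => d' - m' (J l)) d' : ℤ) -
            ∑ i ∈ univ.filter (fun i => (∀ l, J l ≠ i) ∧ 1 ≤ m' i),
              (cnt r s (fun l => d' - m' (J l)) (m' i - 1) : ℤ)) ∧
        (¬ ImposesMaximalConditions r d p m ↔
          0 < (cnt r s (fun l => d' - m' (J l)) d' : ℤ) -
            ∑ i ∈ univ.filter (fun i => (∀ l, J l ≠ i) ∧ 1 ≤ m' i),
              (cnt r s (fun l => d' - m' (J l)) (m' i - 1) : ℤ) ∧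
          ((d + r).choose r : ℤ) - ∑ i, ((m i + r - 1).choose r : ℤ) <
            (cnt r s (fun l => d' - m' (J l)) d' : ℤ) -
              ∑ i ∈ univ.filter (fun i => (∀ l, J l ≠ i) ∧ 1 ≤ m' i),
                (cnt r s (fun l => d' - m' (J l)) (m' i - 1) : ℤ)) := by
  constructor
  · intro r hr
    obtain ⟨K₁, E₁, h₁⟩ := Pool.Agent.H74.SC.plane_TS
    obtain ⟨K₂, E₂, h₂⟩ := Pool.Agent.H74.BP.plane_T
    refine ⟨K₁ + K₂ + 300 * r + 1, E₁ + E₂ + r + 4, fun M hM ε hε => ?_⟩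
    have hpow : ∀ {a b K' K'' : ℕ}, a ≤ b → K' ≤ K'' → K' * M ^ a ≤ K'' * M ^ b := fun hab hK =>
      Nat.mul_le_mul hK (Nat.pow_le_pow_right hM hab)
    have hD1 : K₁ * M ^ E₁ ≤ (K₁ + K₂ + 300 * r + 1) * M ^ (E₁ + E₂ + r + 4) :=
      hpow (by omega) (by omega)
    have hD2 : K₂ * M ^ E₂ ≤ (K₁ + K₂ + 300 * r + 1) * M ^ (E₁ + E₂ + r + 4) :=
      hpow (by omega) (by omega)
    have hD3 : 300 * r * M ^ (r + 4) ≤ (K₁ + K₂ + 300 * r + 1) * M ^ (E₁ + E₂ + r + 4) :=
      hpow (by omega) (by omega)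
    set F := 300 * r * M ^ (r + 4) with hF
    obtain ⟨d₁, hd₁⟩ := Pool.Agent.H74.SC.gen_exact r F hr ε hε
    obtain ⟨d₂, hd₂⟩ := Pool.Agent.H74.SC.exact36 F ε hε
    obtain ⟨d₃, hd₃⟩ := Pool.Agent.H74.SC.exact_anti F ε hε
    refine ⟨d₁ + d₂ + d₃ + K₁ * M ^ E₁ + 1, fun k d d' m m' J hred hor => ?_⟩
    refine cremona_final (by omega) hred ?_
    rcases hor with ⟨hoff, hor⟩ | ⟨rfl, hS, hor⟩
    · have hoff1 : Pool.Agent.H74.SC.OffS r (K₁ * M ^ E₁) M d' m' J :=
        Pool.Agent.H74.SC.OffS.mono hoff hD1 le_rfl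
      have hoff3 : Pool.Agent.H74.SC.OffS r F M d' m' J :=
        Pool.Agent.H74.SC.OffS.mono hoff hD3 le_rfl
      rcases hor with ⟨hd, hJ, hor⟩ | ⟨rfl, hS, hd, h8⟩
      · rcases hor with h | h | ⟨rfl, hS, hsq⟩
        · obtain ⟨h1, h2⟩ := hd₁ k d' m' J (by omega) hJ (Or.inl h)
          exact Pool.Agent.H74.SC.of_exactS r M hr hM k d' m' J h1 h2 hoff3
        · obtain ⟨h1, h2⟩ := hd₁ k d' m' J (by omega) hJ (Or.inr h)
          exact Pool.Agent.H74.SC.of_exactS r M hr hM k d' m' J h1 h2 hoff3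
        · rcases Nat.lt_or_ge J.card 9 with h9 | h9
          · exact h₁ M hM k d' m' J (by omega) hS (by omega) hoff1
          · rcases hsq with hsq | hsq
            · obtain ⟨h1, h2⟩ := hd₂ k d' m' J (by omega) hJ h9 hS hsq
              exact Pool.Agent.H74.SC.of_exactS 2 M hr hM k d' m' J h1 h2 hoff3
            · obtain ⟨h1, h2⟩ := hd₃ k d' m' J (by omega) hJ h9 hS hsq
              exact Pool.Agent.H74.SC.of_exactS 2 M hr hM k d' m' J h1 h2 hoff3
      · exact h₁ M hM k d' m' J h8 hS (hD1.trans hd) hoff1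
    · rcases hor with h | ⟨hd, h9, hM9, hsum⟩
      · exact Pool.Agent.H74.BP.imposes_of_zero (by norm_num) m'
          (Pool.Agent.H74.KV.xu_empty36 hS h)
      · exact h₂ M hM k d' M m' J hM9 hS (hD2.trans hd) (Or.inr ⟨h9, le_rfl, by omega⟩)
  · intro r hr
    obtain ⟨K, E, h⟩ := Pool.Agent.H18.Tk.final_K r (by omega)
    refine ⟨K, E, fun M hM => ?_⟩
    obtain ⟨D, hD⟩ := Pool.Agent.H18.Tl.final_L r hr M
    refine ⟨max D M, fun k d d' s m m' J hcr hs hm hJ hor => ?_⟩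
    rcases hor with ⟨hd, hred⟩ | ⟨hd, hsum, hc⟩
    · refine hD k d d' s m m' J hcr hs hm (fun i => ?_) hred ((le_max_left _ _).trans hd)
      by_cases hi : ∀ l, J l ≠ i
      · exact (hm i hi).trans ((le_max_right _ _).trans hd)
      · push Not at hi
        obtain ⟨l, rfl⟩ := hi
        exact hJ l
    · exact h M hM k d d' s m m' J hcr hs hm hJ hd hsum hc

end Pool.Agent.Results.MP_1dafdd_ag.NoMargins
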