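import Pool.Agent.H94.LP5.H74.V7.FinC
import Pool.Agent.H94.LP5.H74.V7.FinD
import Pool.Agent.H94.LP5.M58

/-!
# Bounded multiplicities: a region of degrees without failing tuples, uniform in the dimension

There is an absolute constant `C > 0` such that for all `r, M ≥ 1`, all `k` and all multiplicities
`1 ≤ m_1, …, m_k ≤ M` there is no failing tuple in the degrees `d ≥ C M^{1 + 22/r} (1 + M/r)^3`.

There is no window: the number of conditions may be equal or arbitrarily close to the number of forms.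
-/

namespace Pool.Agent.Results.MP_1dafdd_ag.UniformRegion

open Pool.Agent.H18.Fat

/-- There is `C > 0` such that for all `r, M ≥ 1`, all `d`, `k` and all multiplicities
`1 ≤ m_1, …, m_k ≤ M`: if `C M (1 + M / r) ^ 3 M ^ (22 / r) ≤ d`, then for general points `Γ` imposes maximal
conditions in degree `d`. -/
theorem result :
    ∃ C : ℝ, 0 < C ∧ ∀ r M d k : ℕ, 1 ≤ r → 1 ≤ M →
      C * M * (1 + (M : ℝ) / r) ^ 3 * (M : ℝ) ^ (22 / (r : ℝ)) ≤ d →
        ∀ m : Fin k → ℕ, (∀ i, 1 ≤ m i ∧ m i ≤ M) →
          ForGeneralPoints r k fun p => ImposesMaximalConditions r d p m := by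
  obtain ⟨C, hC, r₀, h⟩ := Pool.Agent.H74.V7.all_degrees Pool.Agent.V7.crit
  exact ⟨C, hC, fun r M d k hr hM hd m hm => (h r M d k hr hM m hm).1 (Or.inl hd)⟩

end Pool.Agent.Results.MP_1dafdd_ag.UniformRegion
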